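import Mathlib
import Pool.Agent.Work.MP_4f7796_ag.Main

set_option autoImplicit false

namespace Pool.Agent.Results.MP_4f7796_ag.CurveThroughEveryPoint

open MvPolynomial

universe u

/-- The surface `F = 0` in `P^3` over `K` is smooth: at every point of it over an algebraic closure
of `K` some first derivative of `F` does not vanish. -/
def SmoothSurface {K : Type u} [Field K] (F : MvPolynomial (Fin 4) K) : Prop :=
  ∀ p : Fin 4 → AlgebraicClosure K, p ≠ 0 → aeval p F = 0 → ∃ i, aeval p (pderiv i F) ≠ 0

/-- A non-constant morphism `P^1 → P^3` over `K` in coordinates: four binary forms over `K` of the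
same degree `d ≥ 1`, without a common zero in `P^1` over an algebraic closure of `K`. -/
structure CurveMap (K : Type u) [Field K] where
  /-- the degree -/
  d : ℕ
  /-- the four coordinates -/
  f : Fin 4 → MvPolynomial (Fin 2) K
  pos : 0 < d
  homogeneous : ∀ i, (f i).IsHomogeneous d
  noCommonZero : ∀ v : Fin 2 → AlgebraicClosure K, v ≠ 0 → ∃ i, aeval v (f i) ≠ 0

/-- The image of the morphism lies on the surface `F = 0`. -/
def CurveMap.LiesOn {K : Type u} [Field K] (φ : CurveMap K) (F : MvPolynomial (Fin 4) K) : Prop :=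
  aeval φ.f F = 0

/-- The image of the morphism contains the point `(x_0 : x_1 : x_2 : x_3)`. -/
def CurveMap.PassesThrough {K : Type u} [Field K] (φ : CurveMap K) (x : Fin 4 → K) : Prop :=
  ∃ (v : Fin 2 → AlgebraicClosure K) (c : AlgebraicClosure K), v ≠ 0 ∧ c ≠ 0 ∧
    ∀ i, aeval v (φ.f i) = c * algebraMap K (AlgebraicClosure K) (x i)

/-- Through every rational point `x` of every smooth cubic surface `F = 0` over every finite field
`K` there passes a rational curve that is defined over `K` and lies on the surface. -/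
theorem result {K : Type u} [Field K] [Finite K] (F : MvPolynomial (Fin 4) K)
    (hF : F.IsHomogeneous 3) (hsmooth : SmoothSurface F) (x : Fin 4 → K) (hx : x ≠ 0)
    (hxF : eval x F = 0) : ∃ φ : CurveMap K, φ.LiesOn F ∧ φ.PassesThrough x := by
  obtain ⟨d, f, h1, h2, h3, h4, v, hv, c, hc, h5⟩ :=
    Pool.Agent.Work.MP_4f7796_ag.main F hF hsmooth x hx hxF
  exact ⟨⟨d, f, h1, h2, h3⟩, h4, v, c, hv, hc, h5⟩

end Pool.Agent.Results.MP_4f7796_ag.CurveThroughEveryPoint
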